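import Pool.Agent.Lib.MP_b9289b_nt.J.J06
import Pool.Agent.Lib.MP_b9289b_nt.U.K05

/-!
# Isospectral Riemann surfaces and Galois conjugate Jacobians: a counterexample

There are isospectral compact Riemann surfaces `X = ΓX \ ℍ` and `Y = ΓY \ ℍ` such that the
Jacobian of `Y` is isogenous to the Jacobian of the conjugate surface `X^σ` for no field
automorphism `σ` of `ℂ`.
-/

open UpperHalfPlane MatrixGroups Pool.Agent.Lib.MP_b9289b_nt

namespace Pool.Agent.Results.MP_b9289b_nt.NoGaloisConjugateIsogeny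

/-- There are isospectral compact Riemann surfaces `X`, `Y` such that, for every field
automorphism `σ` of `ℂ` and every compact Riemann surface `X'` which is the conjugate `X^σ`, the
Jacobians of `Y` and of `X'` are not isogenous. -/
theorem result :
    ∃ ΓX ΓY : Subgroup SL(2, ℝ),
      IsSurfaceGroup ΓX ∧ IsSurfaceGroup ΓY ∧ Isospectral ΓX ΓY ∧
      ∀ (σ : ℂ ≃+* ℂ) (Γ' : Subgroup SL(2, ℝ)), IsSurfaceGroup Γ' → IsGaloisConj σ ΓX Γ' →
        ¬ JacobianIsogenous ΓY Γ' ∧ ¬ JacobianIsogenous Γ' ΓY :=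
  main_of_orb partU

end Pool.Agent.Results.MP_b9289b_nt.NoGaloisConjugateIsogeny
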